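import Pool.Agent.H458.AR.Coh
import Pool.Graph.R_pool_sql_team_seeded_63374d34.N630.PP.GP
import Pool.Graph.R_pool_sql_team_seeded_63374d34.N187.PP.GN

/-!
# Project AR (helper458), part CC: every class with square norm comes from a cocycle
-/

set_option autoImplicit false
set_option linter.all false

open IsDedekindDomain NumberField Polynomial
open scoped Classical Pointwise

namespace Pool.Agent.H278.AR458

open Pool.Agent.H458.AR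
open Pool.Agent.N874.PP (sW IsBeta sg Rt rr S_GP3 S_GP4)
open Pool.Agent.N187.PP
open Pool.Agent.N630.PP (gp3 gp4)
open Pool.Agent.TH115.GD (Pt act rs IsCoc LocTriv Comp Sep)

section

variable {K : Type} [Field K] {A B : K}

/-- A point of order two is determined by its pairings. -/
theorem uniq (h6 : (6 : K) ≠ 0) (hd : 4 * A ^ 3 + 27 * B ^ 2 ≠ 0)
    (hirr : Irreducible (X ^ 3 + C A * X + C B : K[X])) {T T' : Pt (sW A B) (Sep K)}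
    (hT : (2 : ℕ) • T = 0) (hT' : (2 : ℕ) • T' = 0)
    (h : ∀ s : Sep K, Rt A B s → sg T s = sg T' s) : T = T' := by
  obtain ⟨t₁, t₂, t₃, n1, n2, n3, r1, r2, r3, -⟩ := exists_roots h6 hirr
  obtain ⟨-, G2, G3, -⟩ := gp3 K (Sep K) A B h6 hd t₁ t₂ t₃ r1 r2 r3 n1 n2 n3
  have h2 : (2 : ℕ) • (T + T') = 0 := by rw [nsmul_add, hT, hT', add_zero]
  have key : ∀ s : Sep K, Rt A B s → sg (T + T') s = 1 := by
    intro s hs
    rw [G2 T T' s hT hT' hs, h s hs, sg_mul_self]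
  have h3 := G3 (T + T') h2 (key _ r1) (key _ r2) (key _ r3)
  have h4 : T' + T' = 0 := by rw [← two_nsmul]; exact hT'
  exact (eq_neg_of_add_eq_zero_left h3).trans (eq_neg_of_add_eq_zero_left h4).symm

/-- The point with the prescribed pairings. -/
theorem point (h6 : (6 : K) ≠ 0) (hd : 4 * A ^ 3 + 27 * B ^ 2 ≠ 0)
    (hirr : Irreducible (X ^ 3 + C A * X + C B : K[X])) (h : K[X]) (β : Sep K → Sep K)
    (hβ : ∀ t : Sep K, Rt A B t → β t ≠ 0) (hβ2 : ∀ t : Sep K, Rt A B t → aeval t h = β t ^ 2)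
    {t₁ t₂ t₃ : Sep K} (n1 : t₁ ≠ t₂) (n2 : t₁ ≠ t₃) (n3 : t₂ ≠ t₃) (r1 : Rt A B t₁)
    (r2 : Rt A B t₂) (r3 : Rt A B t₃) (m : K)
    (hm : β t₁ * β t₂ * β t₃ = algebraMap K (Sep K) m) (σ : Sep K ≃ₐ[K] Sep K) :
    ∃ T : Pt (sW A B) (Sep K), (2 : ℕ) • T = 0 ∧
      ∀ t : Sep K, Rt A B t → σ (β t) = sg T (σ t) * β (σ t) := by
  obtain ⟨-, -, -, G4⟩ := gp3 K (Sep K) A B h6 hd t₁ t₂ t₃ r1 r2 r3 n1 n2 n3
  obtain ⟨ε, hε⟩ : ∃ ε : Sep K → Sep K, ∀ s, ε s = σ (β (σ⁻¹ s)) / β s := ⟨_, fun _ => rfl⟩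
  have hinv : ∀ s : Sep K, σ ((σ⁻¹ : Sep K ≃ₐ[K] Sep K) s) = s := by
    intro s
    rw [← AlgEquiv.mul_apply, mul_inv_cancel, AlgEquiv.one_apply]
  have hinv' : ∀ s : Sep K, (σ⁻¹ : Sep K ≃ₐ[K] Sep K) (σ s) = s := by
    intro s
    rw [← AlgEquiv.mul_apply, inv_mul_cancel, AlgEquiv.one_apply]
  have hε1 : ∀ s : Sep K, Rt A B s → (ε s = 1 ∨ ε s = -1) := by
    intro s hs
    have hs' : Rt A B ((σ⁻¹ : Sep K ≃ₐ[K] Sep K) s) := rt_map' σ⁻¹ hs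
    rw [← mul_self_eq_one_iff, ← pow_two, hε, div_pow, ← map_pow, ← hβ2 _ hs']
    have e : σ (aeval ((σ⁻¹ : Sep K ≃ₐ[K] Sep K) s) h) = aeval s h := by
      have e1 := aeval_algHom_apply σ.toAlgHom ((σ⁻¹ : Sep K ≃ₐ[K] Sep K) s) h
      have e2 : σ.toAlgHom ((σ⁻¹ : Sep K ≃ₐ[K] Sep K) s) = s := hinv s
      rw [e2] at e1
      exact e1.symm
    rw [e, ← hβ2 s hs, div_self]
    rw [hβ2 s hs]
    exact pow_ne_zero 2 (hβ s hs)
  have hprod : ε t₁ * ε t₂ * ε t₃ = 1 := by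
    rw [hε, hε, hε]
    have e1 := prod_perm n1 n2 n3 r1 r2 r3 σ⁻¹ β
    have e2 : σ (β ((σ⁻¹ : Sep K ≃ₐ[K] Sep K) t₁)) * σ (β ((σ⁻¹ : Sep K ≃ₐ[K] Sep K) t₂)) *
        σ (β ((σ⁻¹ : Sep K ≃ₐ[K] Sep K) t₃)) = β t₁ * β t₂ * β t₃ := by
      rw [← map_mul, ← map_mul, e1, hm]
      exact σ.commutes m
    have b1 := hβ _ r1
    have b2 := hβ _ r2
    have b3 := hβ _ r3
    rw [div_mul_div_comm, div_mul_div_comm, e2, div_self]
    exact mul_ne_zero (mul_ne_zero b1 b2) b3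
  obtain ⟨T, hT, s1, s2, s3⟩ := G4 _ _ _ (hε1 _ r1) (hε1 _ r2) (hε1 _ r3) hprod
  refine ⟨T, hT, fun t ht => ?_⟩
  have hst : Rt A B (σ t) := rt_map' σ ht
  have h1 : sg T (σ t) = ε (σ t) := by
    rcases root_cases n1 n2 n3 r1 r2 r3 hst with e | e | e
    · rw [e, s1]
    · rw [e, s2]
    · rw [e, s3]
  rw [h1, hε, hinv', div_mul_cancel₀ _ (hβ _ hst)]

theorem cc_gen (h6 : (6 : K) ≠ 0) (hd : 4 * A ^ 3 + 27 * B ^ 2 ≠ 0)
    (hirr : Irreducible (X ^ 3 + C A * X + C B : K[X])) (h : K[X])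
    (hcop : IsCoprime h (X ^ 3 + C A * X + C B))
    (hsq : IsSquare (Algebra.norm K (AdjoinRoot.mk (X ^ 3 + C A * X + C B : K[X]) h))) :
    ∃ f : (Sep K ≃ₐ[K] Sep K) → Pt (sW A B) (Sep K), IsCoc (sW A B) f ∧ (∀ σ, (2 : ℕ) • f σ = 0) ∧
    ∃ β : Sep K → Sep K, IsBeta A B f β ∧ ∀ t : Sep K, Rt A B t → aeval t h = β t ^ 2 := by
  obtain ⟨t₁, t₂, t₃, n1, n2, n3, r1, r2, r3, -⟩ := exists_roots h6 hirr
  have hnz : NeZero ((2 : ℕ) : Sep K) := by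
    refine ⟨fun h0 => h6 ?_⟩
    apply (algebraMap K (Sep K)).injective
    rw [map_zero, show (6 : K) = ((2 : ℕ) : K) * 3 by norm_num, map_mul, map_natCast, h0, zero_mul]
  have hne : ∀ t : Sep K, Rt A B t → aeval t h ≠ 0 := by
    intro t ht h0
    obtain ⟨u, v, huv⟩ := hcop
    have e := congrArg (aeval t) huv
    rw [map_add, map_mul, map_mul, h0, (rt_iff t).1 ht, mul_zero, mul_zero, add_zero, map_one] at e
    exact zero_ne_one e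
  -- the norm
  obtain ⟨m, hm⟩ := hsq
  have hN : algebraMap K (Sep K) m * algebraMap K (Sep K) m =
      aeval t₁ h * aeval t₂ h * aeval t₃ h := by
    have hF : Fact (Irreducible (X ^ 3 + C A * X + C B : K[X])) := ⟨hirr⟩
    have hrt : Rt A B (AdjoinRoot.root (X ^ 3 + C A * X + C B : K[X])) := by
      rw [rt_iff, AdjoinRoot.aeval_eq, AdjoinRoot.mk_self]
    have hfin : Module.finrank K (AdjoinRoot (X ^ 3 + C A * X + C B : K[X])) = 3 := by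
      rw [(AdjoinRoot.powerBasis hirr.ne_zero).finrank, AdjoinRoot.powerBasis_dim, F_natDegree]
    have e := norm_poly h6 hirr hrt hfin n1 n2 n3 r1 r2 r3 h
    rw [AdjoinRoot.aeval_eq] at e
    rw [← e, ← map_mul]
    exact congrArg _ hm.symm
  obtain ⟨b₁, hb₁⟩ := IsSepClosed.exists_pow_nat_eq (aeval t₁ h) 2
  obtain ⟨b₂, hb₂⟩ := IsSepClosed.exists_pow_nat_eq (aeval t₂ h) 2
  have c1 : b₁ ≠ 0 := by
    rintro rfl
    exact hne _ r1 (by rw [← hb₁]; ring)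
  have c2 : b₂ ≠ 0 := by
    rintro rfl
    exact hne _ r2 (by rw [← hb₂]; ring)
  obtain ⟨μ, hμ⟩ : ∃ μ, μ = algebraMap K (Sep K) m := ⟨_, rfl⟩
  rw [← hμ] at hN
  have hμ0 : μ ≠ 0 := by
    rintro h0
    rw [h0, mul_zero] at hN
    exact mul_ne_zero (mul_ne_zero (hne _ r1) (hne _ r2)) (hne _ r3) hN.symm
  obtain ⟨β, hβd⟩ : ∃ β : Sep K → Sep K, ∀ t, β t =
      if t = t₁ then b₁ else if t = t₂ then b₂ else μ / (b₁ * b₂) := ⟨_, fun _ => rfl⟩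
  have v1 : β t₁ = b₁ := by rw [hβd, if_pos rfl]
  have v2 : β t₂ = b₂ := by rw [hβd, if_neg n1.symm, if_pos rfl]
  have v3 : β t₃ = μ / (b₁ * b₂) := by rw [hβd, if_neg n2.symm, if_neg n3.symm]
  have hβ2 : ∀ t : Sep K, Rt A B t → aeval t h = β t ^ 2 := by
    intro t ht
    rcases root_cases n1 n2 n3 r1 r2 r3 ht with e | e | e
    · rw [e, v1, hb₁]
    · rw [e, v2, hb₂]
    · rw [e, v3, div_pow, mul_pow, hb₁, hb₂, sq μ, hN]
      rw [mul_div_cancel_left₀]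
      exact mul_ne_zero (hne _ r1) (hne _ r2)
  have hβ : ∀ t : Sep K, Rt A B t → β t ≠ 0 := by
    intro t ht h0
    apply hne t ht
    rw [hβ2 t ht, h0]
    ring
  have hmβ : β t₁ * β t₂ * β t₃ = algebraMap K (Sep K) m := by
    rw [v1, v2, v3, ← hμ]
    field_simp
  have hex := point h6 hd hirr h β hβ hβ2 n1 n2 n3 r1 r2 r3 m hmβ
  choose f hf2 hf using hex
  have huniq : ∀ (σ : Sep K ≃ₐ[K] Sep K) (T T' : Pt (sW A B) (Sep K)), (2 : ℕ) • T = 0 →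
      (2 : ℕ) • T' = 0 → (∀ t : Sep K, Rt A B t → sg T (σ t) * β (σ t) = sg T' (σ t) * β (σ t)) →
      T = T' := by
    intro σ T T' hT hT' h1
    apply uniq h6 hd hirr hT hT'
    intro s hs
    have hs' : Rt A B ((σ⁻¹ : Sep K ≃ₐ[K] Sep K) s) := rt_map' σ⁻¹ hs
    have h2 := h1 _ hs'
    have h3 : σ ((σ⁻¹ : Sep K ≃ₐ[K] Sep K) s) = s := by
      rw [← AlgEquiv.mul_apply, mul_inv_cancel, AlgEquiv.one_apply]
    rw [h3] at h2
    exact mul_right_cancel₀ (hβ s hs) h2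
  refine ⟨f, ⟨?_, ?_⟩, hf2, β, fun t ht => ⟨hβ t ht, fun σ => hf σ t ht⟩, hβ2⟩
  · -- locally constant
    rw [IsLocallyConstant.iff_exists_open]
    intro σ
    have ho : ∀ x : Sep K, IsOpen {τ : Sep K ≃ₐ[K] Sep K | τ x = σ x} := by
      intro x
      exact (locConst_apply x).isOpen_fiber (σ x)
    refine ⟨(({τ : Sep K ≃ₐ[K] Sep K | τ t₁ = σ t₁} ∩ {τ : Sep K ≃ₐ[K] Sep K | τ t₂ = σ t₂}) ∩
      {τ : Sep K ≃ₐ[K] Sep K | τ t₃ = σ t₃}) ∩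
      (({τ : Sep K ≃ₐ[K] Sep K | τ (β t₁) = σ (β t₁)} ∩
      {τ : Sep K ≃ₐ[K] Sep K | τ (β t₂) = σ (β t₂)}) ∩
      {τ : Sep K ≃ₐ[K] Sep K | τ (β t₃) = σ (β t₃)}),
      (((ho _).inter (ho _)).inter (ho _)).inter (((ho _).inter (ho _)).inter (ho _)),
      ⟨⟨⟨rfl, rfl⟩, rfl⟩, ⟨⟨rfl, rfl⟩, rfl⟩⟩, ?_⟩
    rintro τ ⟨⟨⟨u1, u2⟩, u3⟩, ⟨⟨w1, w2⟩, w3⟩⟩
    apply huniq σ _ _ (hf2 τ) (hf2 σ)
    intro t ht
    have hts : τ t = σ t ∧ τ (β t) = σ (β t) := by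
      rcases root_cases n1 n2 n3 r1 r2 r3 ht with e | e | e
      · rw [e]; exact ⟨u1, w1⟩
      · rw [e]; exact ⟨u2, w2⟩
      · rw [e]; exact ⟨u3, w3⟩
    rw [← hf σ t ht, ← hts.2, hf τ t ht, hts.1]
  · -- cocycle
    intro σ τ
    have h2 : (2 : ℕ) • act (sW A B) (rs K σ) (f τ) = 0 := two_act' _ (hf2 τ)
    apply huniq (σ * τ) _ _ (hf2 _)
    · rw [nsmul_add, hf2 σ, h2, add_zero]
    intro t ht
    obtain ⟨-, G2, -, -⟩ := gp3 K (Sep K) A B h6 hd t₁ t₂ t₃ r1 r2 r3 n1 n2 n3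
    have hτ : Rt A B (τ t) := rt_map' τ ht
    have hστ : Rt A B (σ (τ t)) := rt_map' σ hτ
    rw [← hf (σ * τ) t ht, AlgEquiv.mul_apply, AlgEquiv.mul_apply, G2 _ _ _ (hf2 σ) h2 hστ,
      sg_act' gp4, hf τ t ht, map_mul, fix_sg, hf σ (τ t) hτ]
    ring

end

theorem cc : S_CC := by
  intro A B hd hirr h hcop hsq
  exact cc_gen (by norm_num) hd hirr h hcop hsq

end Pool.Agent.H278.AR458
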